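import Pool.Agent.H39.FF.Toy
import Pool.Agent.H54.ND.Toy
import Pool.Agent.H76.FF.Top

/-!
# A model of `Model` and of `Four` (corner test)

The numerical data are those of the product of two K3 surfaces `S_1`, `S_2` with Picard number one and
ample generators of degree two: `(a L_1 + b L_2)^4 = 24 a^2 b^2`, the number `c_2(X).x^2` is
`48 (a^2 + b^2)`, and `h^q` is given by the formula of Künneth.
-/

set_option autoImplicit false

open Finset

namespace Pool.Agent.H39.FF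

open Pool.Agent.H31.ND Pool.Agent.H76.FF
open Pool.Agent.H54.ND (cz on ln ln_single)

/-! ## The model -/

/-- The sections on `Y'`: the restrictions to the neighbourhoods are the truncations. -/
def cut (a n : ℕ) : Hq 0 (a + 1) →ₗ[ℂ] Hq 0 (n + 1) where
  toFun u i := if h : (i : ℕ) < a + 1 then u ⟨i, h⟩ else 0
  map_add' u v := by
    funext i
    by_cases h : (i : ℕ) < a + 1
    · simp only [Pi.add_apply, dif_pos h]
    · simp only [Pi.add_apply, dif_neg h, add_zero]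
  map_smul' c u := by
    funext i
    by_cases h : (i : ℕ) < a + 1
    · simp only [Pi.smul_apply, dif_pos h, RingHom.id_apply]
    · simp only [Pi.smul_apply, dif_neg h, smul_zero, RingHom.id_apply]

theorem coh_one (m : ℤ) (n : ℕ) (u : Hq 0 (n + 1)) (i : Fin 1) :
    (Coh.one coh 0 m n u : Hq 0 1) i = u 0 := by
  induction n with
  | zero =>
    have : i = 0 := Subsingleton.elim _ _
    rw [this]
    rfl
  | succ n ih =>
    change (Coh.one coh 0 m n (trunc 0 (n + 1) u) : Hq 0 1) i = u 0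
    rw [ih]
    rfl

/-- A term of the type `Model X x`, if `h^0(X, m x)` is not bounded. -/
noncomputable def model {r : ℕ} (X : Var r) (x : X.P)
    (hx : ∀ a : ℕ, ∃ m : ℕ, 0 < m ∧ a + 1 ≤ X.h 0 (m • x)) : Model X x where
  l := 0
  b := 1
  N := toy 0 1 one_pos
  nonzero a _ := toy_ne 0 1 one_pos _
  Γ a := Hq 0 (a + 1)
  rs a n := cut a n
  onto a n h y := by
    change Hq 0 (n + 1) at y
    refine ⟨(fun i => if h : (i : ℕ) < n + 1 then y ⟨i, h⟩ else 0 : Hq 0 (a + 1)), ?_⟩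
    change (fun i => if h : (i : ℕ) < a + 1 then _ else 0 : Hq 0 (n + 1)) = y
    funext i
    have h1 : (i : ℕ) < a + 1 := by
      have := i.2
      omega
    rw [dif_pos h1]
    exact dif_pos i.2
  can a n ha := by
    refine ⟨(Pi.single (Fin.last a) (fun _ => 1) : Hq 0 (a + 1)), ?_, ?_⟩
    · intro h
      have h1 : (Pi.single (Fin.last a) (fun _ => 1) : Hq 0 (a + 1)) (Fin.last a) = 0 := by
        rw [h]
        rfl
      rw [Pi.single_eq_same] at h1
      have h2 : (1 : ℂ) = 0 := congrFun h1 ⟨(), Or.inl rfl⟩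
      exact one_ne_zero h2
    · change (Coh.one coh 0 _ n (cut a n (Pi.single (Fin.last a) (fun _ => 1))) : Hq 0 1) = 0
      funext i
      rw [coh_one]
      change (if h : ((0 : Fin (n + 1)) : ℕ) < a + 1 then
        (Pi.single (Fin.last a) (fun _ => 1) : Hq 0 (a + 1)) ⟨_, h⟩ else 0) = 0
      rw [dif_pos (by simp)]
      apply Pi.single_eq_of_ne
      intro h
      have := congrArg Fin.val h
      simp at this
      omega
  le a _ := by
    obtain ⟨m, hm, h⟩ := hx a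
    refine ⟨m, hm, le_trans (le_of_eq ?_) h⟩
    change Module.finrank ℂ (Fin (a + 1) → J 0 → ℂ) = a + 1
    have hJ : Fintype.card (J 0) = 1 := by
      rw [Fintype.card_eq_one_iff]
      exact ⟨⟨(), Or.inl rfl⟩, fun _ => rfl⟩
    rw [Module.finrank_pi_fintype]
    simp [hJ]

/-! ## The product of two K3 surfaces -/

def num4 : Num 2 (Bool × Bool) where
  f x y := 4 * (x 0 * y 0 + x 1 * y 1 + 2 * (x 0 * y 1 + x 1 * y 0))
  A := ![1, 1]
  cl F := fun i => (cz F i : ℝ)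
  Nef x := 0 ≤ x 0 ∧ 0 ≤ x 1
  Psef x := 0 ≤ x 0 ∧ 0 ≤ x 1
  Mov x := 0 ≤ x 0 ∧ 0 ≤ x 1

/-- `h^0(S, a L)` -/
def g (a : ℤ) : ℕ := if 0 < a then (a * a + 2).toNat else if a = 0 then 1 else 0

theorem g_pos (a : ℤ) : g a ≠ 0 ↔ 0 ≤ a := by
  unfold g
  split_ifs with h1 h2
  · have : 0 < a * a := mul_pos h1 h1
    omega
  · omega
  · omega

theorem g_add (a : ℤ) : (g a : ℤ) + g (-a) = a * a + 2 := by
  unfold g
  rcases lt_trichotomy a 0 with h | h | h
  · have h1 : 0 < a * a := by nlinarith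
    have h2 : -a * -a = a * a := by ring
    rw [if_neg (by omega), if_neg (by omega), if_pos (by omega), h2]
    omega
  · subst h
    simp
  · have h1 : 0 < a * a := by nlinarith
    rw [if_pos h, if_neg (by omega), if_neg (by omega)]
    omega

theorem g_ge (a : ℤ) (h : 0 ≤ a) : a + 1 ≤ g a := by
  unfold g
  rcases eq_or_lt_of_le h with h1 | h1
  · subst h1
    simp
  · rw [if_pos h1]
    have h2 : a ≤ a * a := by nlinarith
    omega

theorem g_neg (a : ℤ) (h : a < 0) : g a = 0 := by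
  unfold g
  rw [if_neg (by omega), if_neg (by omega)]

def h4 (q : ℕ) (x : Fin 2 → ℤ) : ℕ :=
  if q = 0 then g (x 0) * g (x 1) else
    if q = 2 then g (x 0) * g (-x 1) + g (-x 0) * g (x 1) else
      if q = 4 then g (-x 0) * g (-x 1) else 0

def X4 : Var 2 where
  P := Fin 2 → ℤ
  Pr := Bool × Bool
  Pt := Bool × Bool
  Cv := Bool × Bool
  n := 4
  O := cz
  deg C x := 2 * (cz C 0 * x 0 + cz C 1 * x 1)
  On := on
  In C F := C = F
  h := h4
  c x := x
  num := num4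

theorem form4 : num4.Form where
  add x y z := by simp only [num4, Pi.add_apply]; ring
  mul t x y := by simp only [num4, Pi.smul_apply, smul_eq_mul]; ring
  symm x y := by simp only [num4]; ring
  index x h := by
    simp only [num4, Matrix.cons_val_zero, Matrix.cons_val_one] at h ⊢
    have h1 : x 1 = - x 0 := by linarith
    rw [h1]
    nlinarith [sq_nonneg (x 0)]
  index_eq x h h' := by
    simp only [num4, Matrix.cons_val_zero, Matrix.cons_val_one] at h h'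
    have h1 : x 1 = - x 0 := by linarith
    rw [h1] at h'
    have h2 : x 0 = 0 := by nlinarith [sq_nonneg (x 0)]
    funext i
    fin_cases i
    · exact h2
    · show x 1 = 0
      rw [h1, h2, neg_zero]
  nef_cl x F h := by
    obtain ⟨h0, h1⟩ := h
    rcases F with ⟨a, b⟩
    cases a <;> simp [num4, cz] <;> linarith
  nef_nef x y h h' := by
    obtain ⟨h0, h1⟩ := h
    obtain ⟨h2, h3⟩ := h'
    simp only [num4]
    positivity
  nef_A := by
    constructor <;> simp [num4]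

theorem zariski4 : num4.Zariski where
  nef_psef x y h h' := form4.nef_nef x y h h'
  dec x h := ⟨x, 0, h, ⟨0, Fin.elim0, Fin.elim0, fun i => i.elim0, by simp⟩, by simp⟩
  mov_psef x h := h
  mov_sq x h := form4.nef_nef x x h h

theorem cz_nonneg (F : Bool × Bool) : 0 ≤ cz F 0 ∧ 0 ≤ cz F 1 := by
  rcases F with ⟨a, b⟩
  cases a <;> simp [cz]

theorem cz_sum (F : Bool × Bool) : cz F 0 + cz F 1 = 1 := by
  rcases F with ⟨a, b⟩
  cases a <;> simp [cz]

theorem line4 (D : X4.Pr →₀ ℕ) (j : Fin 2) : (X4.line D) j = ∑ F ∈ D.support, D F • cz F j := by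
  rw [Var.line, Finsupp.sum]
  exact Finset.sum_apply _ _ _

theorem line4_nonneg (D : X4.Pr →₀ ℕ) : 0 ≤ (X4.line D) 0 ∧ 0 ≤ (X4.line D) 1 := by
  rw [line4, line4]
  exact ⟨Finset.sum_nonneg fun F _ => nsmul_nonneg (cz_nonneg F).1 _,
    Finset.sum_nonneg fun F _ => nsmul_nonneg (cz_nonneg F).2 _⟩

theorem line4_pos (D : X4.Pr →₀ ℕ) (h : D ≠ 0) : 0 < (X4.line D) 0 + (X4.line D) 1 := by
  rw [line4, line4, ← Finset.sum_add_distrib]
  refine Finset.sum_pos (fun F hF => ?_) (Finsupp.support_nonempty_iff.2 h)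
  rw [← smul_add, cz_sum]
  have : D F ≠ 0 := Finsupp.mem_support_iff.1 hF
  simp
  omega

theorem nef4 (x : X4.P) : X4.Nef x ↔ 0 ≤ (x : Fin 2 → ℤ) 0 ∧ 0 ≤ (x : Fin 2 → ℤ) 1 := by
  change Fin 2 → ℤ at x
  show (∀ C : Bool × Bool, 0 ≤ 2 * (cz C 0 * x 0 + cz C 1 * x 1)) ↔ _
  constructor
  · intro h
    have h1 := h (true, true)
    have h2 := h (false, true)
    simp [cz] at h1 h2
    exact ⟨h1, h2⟩
  · rintro ⟨h1, h2⟩ ⟨a, b⟩
    cases a <;> simp [cz] <;> assumption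

theorem divisors4 : X4.Divisors where
  form := form4
  zariski := zariski4
  add_c x y := rfl
  tors x h := ⟨1, one_pos, by rw [one_smul]; exact h⟩
  cl_eq F := rfl
  pos F := by
    have h1 : (cz F 0 : ℝ) + cz F 1 = 1 := by exact_mod_cast cz_sum F
    show 0 < 4 * ((![1, 1] : Vec 2) 0 * (cz F 0 : ℝ) + (![1, 1] : Vec 2) 1 * (cz F 1 : ℝ) +
      2 * ((![1, 1] : Vec 2) 0 * (cz F 1 : ℝ) + (![1, 1] : Vec 2) 1 * (cz F 0 : ℝ)))
    simp only [Matrix.cons_val_zero, Matrix.cons_val_one, one_mul]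
    linarith
  add_deg C x y := by
    show 2 * (cz C 0 * (x 0 + y 0) + cz C 1 * (x 1 + y 1)) = _
    show _ = 2 * (cz C 0 * x 0 + cz C 1 * x 1) + 2 * (cz C 0 * y 0 + cz C 1 * y 1)
    ring
  nef x := by
    rw [nef4]
    show _ ↔ (0 ≤ ((x 0 : ℤ) : ℝ) ∧ 0 ≤ ((x 1 : ℤ) : ℝ))
    rw [Int.cast_nonneg_iff, Int.cast_nonneg_iff]
  not_in C F h := by
    show 0 ≤ 2 * (cz C 0 * cz F 0 + cz C 1 * cz F 1)
    have h1 := cz_nonneg C
    have h2 := cz_nonneg F
    have h3 := mul_nonneg h1.1 h2.1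
    have h4 := mul_nonneg h1.2 h2.2
    linarith
  cl_cl F F' h := by
    show 0 ≤ 4 * ((cz F 0 : ℝ) * cz F' 0 + cz F 1 * cz F' 1 + 2 * (cz F 0 * cz F' 1 + cz F 1 * cz F' 0))
    have h1 : (0 : ℝ) ≤ cz F 0 := by exact_mod_cast (cz_nonneg F).1
    have h2 : (0 : ℝ) ≤ cz F 1 := by exact_mod_cast (cz_nonneg F).2
    have h3 : (0 : ℝ) ≤ cz F' 0 := by exact_mod_cast (cz_nonneg F').1
    have h4 : (0 : ℝ) ≤ cz F' 1 := by exact_mod_cast (cz_nonneg F').2
    positivity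
  disj F F' h h' p := by
    exfalso
    have h'' : 4 * ((cz F 0 : ℝ) * cz F' 0 + cz F 1 * cz F' 1 +
      2 * (cz F 0 * cz F' 1 + cz F 1 * cz F' 0)) = 0 := h'
    rcases F with ⟨a, b⟩
    rcases F' with ⟨c, d⟩
    cases a <;> cases c <;> simp [cz] at h''
  disj_in C F F' h h' h'' := by
    exfalso
    have h'' : 4 * ((cz F 0 : ℝ) * cz F' 0 + cz F 1 * cz F' 1 +
      2 * (cz F 0 * cz F' 1 + cz F 1 * cz F' 0)) = 0 := h'
    rcases F with ⟨a, b⟩
    rcases F' with ⟨c, d⟩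
    cases a <;> cases c <;> simp [cz] at h''
  sect x := by
    show g (x 0) * g (x 1) ≠ 0 ↔ _
    rw [mul_ne_zero_iff, g_pos, g_pos]
    constructor
    · rintro ⟨h1, h2⟩
      refine ⟨Finsupp.single (true, true) (x 0).toNat + Finsupp.single (false, true) (x 1).toNat, ?_⟩
      refine (ln_single _ _).trans ?_
      funext i
      fin_cases i
      · exact Int.toNat_of_nonneg h1
      · exact Int.toNat_of_nonneg h2
    · rintro ⟨D, rfl⟩
      exact line4_nonneg D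

theorem chi4 (x : X4.P) : X4.chi x =
    ((x : Fin 2 → ℤ) 0 * (x : Fin 2 → ℤ) 0 + 2) * ((x : Fin 2 → ℤ) 1 * (x : Fin 2 → ℤ) 1 + 2) := by
  change Fin 2 → ℤ at x
  rw [← g_add, ← g_add, Var.chi]
  show ∑ q ∈ Finset.range 5, (-1) ^ q * (h4 q x : ℤ) = _
  rw [Finset.sum_range_succ, Finset.sum_range_succ, Finset.sum_range_succ, Finset.sum_range_succ,
    Finset.sum_range_one]
  simp only [h4]
  norm_num
  ring

theorem coh4 : X4.Coh where
  snapper x := by
    refine ⟨(Polynomial.C ((x 0 : ℚ) * x 0) * Polynomial.X ^ 2 + Polynomial.C 2) *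
      (Polynomial.C ((x 1 : ℚ) * x 1) * Polynomial.X ^ 2 + Polynomial.C 2), fun m => ?_⟩
    rw [chi4]
    simp only [Polynomial.eval_add, Polynomial.eval_mul, Polynomial.eval_C, Polynomial.eval_pow,
      Polynomial.eval_X]
    show ((((m * x 0) * (m * x 0) + 2) * ((m * x 1) * (m * x 1) + 2) : ℤ) : ℚ) = _
    push_cast
    ring

/-- the blow up of a point: the coefficient of the exceptional divisor comes last; the intersection
numbers with the square of the ample class `2 L_1 + 2 L_2 - E` -/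
noncomputable def bl4 (p : Bool × Bool) : Num 3 (Option (Bool × Bool)) := by
  classical
  exact
  { f := fun x y => 16 * (x 0 * y 0 + x 1 * y 1 + 2 * (x 0 * y 1 + x 1 * y 0)) - x 2 * y 2
    A := ![2, 2, -1]
    cl := fun F => match F with
      | none => ![0, 0, 1]
      | some F => ![(cz F 0 : ℝ), (cz F 1 : ℝ), if on p F then -1 else 0]
    Nef := fun x => x 2 ≤ 0 ∧ 0 ≤ 2 * x 0 + x 2 ∧ 0 ≤ 2 * x 1 + x 2
    Psef := fun x => 0 ≤ x 0 ∧ 0 ≤ x 1 ∧ 0 ≤ x 0 + x 1 + x 2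
    Mov := fun x => x 2 ≤ 0 ∧ 0 ≤ 2 * x 0 + x 2 ∧ 0 ≤ 2 * x 1 + x 2 }

theorem bl4_f (p : Bool × Bool) (x y : Vec 3) : (bl4 p).f x y =
    16 * (x 0 * y 0 + x 1 * y 1 + 2 * (x 0 * y 1 + x 1 * y 0)) - x 2 * y 2 := rfl

theorem bl4_A (p : Bool × Bool) : (bl4 p).A = ![2, 2, -1] := rfl

theorem bl4_none (p : Bool × Bool) : (bl4 p).cl none = ![0, 0, 1] := rfl

theorem bl4_some (p F : Bool × Bool) : ∃ e : ℝ, (e = -1 ∨ e = 0) ∧ (on p F → e = -1) ∧
    (bl4 p).cl (some F) = ![(cz F 0 : ℝ), (cz F 1 : ℝ), e] := by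
  classical
  refine ⟨if on p F then -1 else 0, ?_, fun h => if_pos h, rfl⟩
  by_cases h : on p F
  · exact Or.inl (if_pos h)
  · exact Or.inr (if_neg h)

theorem bl4form (p : Bool × Bool) : (bl4 p).Form where
  add x y z := by simp only [bl4_f, Pi.add_apply]; ring
  mul t x y := by simp only [bl4_f, Pi.smul_apply, smul_eq_mul]; ring
  symm x y := by simp only [bl4_f]; ring
  index x h := by
    simp [bl4_f, bl4_A] at h
    have h1 : x 2 = -(96 * (x 0 + x 1)) := by linarith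
    rw [bl4_f, h1]
    nlinarith [sq_nonneg (x 0 + x 1), sq_nonneg (x 0 - x 1)]
  index_eq x h h' := by
    simp [bl4_f, bl4_A] at h h'
    have h1 : x 2 = -(96 * (x 0 + x 1)) := by linarith
    rw [h1] at h'
    have h2 : x 0 + x 1 = 0 := by nlinarith [sq_nonneg (x 0 + x 1), sq_nonneg (x 0 - x 1)]
    have h3 : x 0 - x 1 = 0 := by nlinarith [sq_nonneg (x 0 + x 1), sq_nonneg (x 0 - x 1)]
    have h4 : x 0 = 0 := by linarith
    have h5 : x 1 = 0 := by linarith
    funext i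
    fin_cases i
    · exact h4
    · exact h5
    · show x 2 = 0
      rw [h1, h2]
      norm_num
  nef_cl x F h := by
    obtain ⟨h1, h2, h3⟩ := h
    rcases F with _ | F
    · rw [bl4_none, bl4_f]
      simp
      exact h1
    · obtain ⟨e, he, -, hF⟩ := bl4_some p F
      rw [hF, bl4_f]
      rcases F with ⟨a, b⟩
      rcases he with rfl | rfl <;> cases a <;> simp [cz] <;> linarith
  nef_nef x y h h' := by
    obtain ⟨h1, h2, h3⟩ := h
    obtain ⟨h1', h2', h3'⟩ := h'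
    rw [bl4_f]
    have hx0 : 0 ≤ x 0 := by linarith
    have hx1 : 0 ≤ x 1 := by linarith
    have hy0 : 0 ≤ y 0 := by linarith
    have hy1 : 0 ≤ y 1 := by linarith
    have e1 : 0 ≤ x 0 * y 0 := mul_nonneg hx0 hy0
    have e2 : 0 ≤ x 1 * y 1 := mul_nonneg hx1 hy1
    have e3 : 0 ≤ x 0 * y 1 := mul_nonneg hx0 hy1
    have e4 : 0 ≤ x 1 * y 0 := mul_nonneg hx1 hy0
    have e5 : x 2 * y 2 ≤ 4 * (x 0 * y 0) := by
      nlinarith [mul_nonneg (neg_nonneg.2 h1) h2', mul_nonneg hy0 h2]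
    linarith
  nef_A := by
    rw [bl4_A]
    show (-1 : ℝ) ≤ 0 ∧ 0 ≤ 2 * (2 : ℝ) + -1 ∧ 0 ≤ 2 * (2 : ℝ) + -1
    norm_num

theorem bl4zariski (p : Bool × Bool) : (bl4 p).Zariski where
  nef_psef x y h h' := by
    obtain ⟨h1, h2, h3⟩ := h
    obtain ⟨h1', h2', h3'⟩ := h'
    rw [bl4_f]
    have hx0 : 0 ≤ x 0 := by linarith
    have hx1 : 0 ≤ x 1 := by linarith
    have e1 : 0 ≤ x 0 * y 0 := mul_nonneg hx0 h1'
    have e2 : 0 ≤ x 1 * y 1 := mul_nonneg hx1 h2'
    have e3 : 0 ≤ x 0 * y 1 := mul_nonneg hx0 h2'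
    have e4 : 0 ≤ x 1 * y 0 := mul_nonneg hx1 h1'
    nlinarith [mul_nonneg (neg_nonneg.2 h1) h3', mul_nonneg h2 h1', mul_nonneg h3 h2']
  dec x h := by
    obtain ⟨h1, h2, h3⟩ := h
    refine ⟨0, x, ⟨le_refl _, by simp, by simp⟩, ?_, by simp⟩
    refine ⟨3, ![none, some (true, p.1), some (false, p.2)], ![x 0 + x 1 + x 2, x 0, x 1], ?_, ?_⟩
    · intro i
      fin_cases i <;> simp <;> assumption
    · obtain ⟨e1, -, he1, hF1⟩ := bl4_some p (true, p.1)
      obtain ⟨e2, -, he2, hF2⟩ := bl4_some p (false, p.2)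
      have he1 := he1 (Or.inl ⟨rfl, rfl⟩)
      have he2 := he2 (Or.inr ⟨rfl, rfl⟩)
      rw [Fin.sum_univ_three]
      simp only [Matrix.cons_val_zero, Matrix.cons_val_one, Matrix.cons_val_two, Matrix.head_cons,
        Matrix.tail_cons]
      rw [bl4_none, hF1, hF2, he1, he2]
      funext i
      fin_cases i
      · simp [cz]
      · simp [cz]
      · simp [cz]
        ring
  mov_psef x h := by
    obtain ⟨h1, h2, h3⟩ := h
    exact ⟨by linarith, by linarith, by linarith⟩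
  mov_sq x h := (bl4form p).nef_nef x x h h

theorem push4_none (p : Bool × Bool) : (![(bl4 p).cl none 0, (bl4 p).cl none 1] : Vec 2) = 0 := by
  rw [bl4_none]
  funext i
  fin_cases i <;> simp

theorem push4_some (p F : Bool × Bool) :
    (![(bl4 p).cl (some F) 0, (bl4 p).cl (some F) 1] : Vec 2) = num4.cl F := by
  obtain ⟨e, -, -, hF⟩ := bl4_some p F
  rw [hF]
  funext i
  fin_cases i <;> simp [num4]

theorem none4_pos (p : Bool × Bool) : 0 < (bl4 p).f (bl4 p).A ((bl4 p).cl none) := by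
  rw [bl4_none, bl4_A, bl4_f]
  simp

noncomputable def currents4 : X4.Currents where
  Cur x := PLift (X4.Nef x)
  nu _ _ _ := 0
  nu_nonneg _ _ _ := le_refl _
  exist x h := ⟨⟨h⟩⟩
  bl := bl4
  pull _ x := ![x 0, x 1, 0]
  push _ x := ![x 0, x 1]
  form := bl4form
  zariski := bl4zariski
  push_add p x y := by
    funext i
    fin_cases i <;> simp
  push_mul p t x := by
    funext i
    fin_cases i <;> simp
  push_pull p x := by
    funext i
    fin_cases i <;> simp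
  push_none p := push4_none p
  push_some p F := push4_some p F
  none_pos p := none4_pos p
  pull_nef p x h := by
    have h1 := (divisors4.nef x).1 h
    obtain ⟨h2, h3⟩ := h1
    have h2' : 0 ≤ X4.rl x 0 := h2
    have h3' : 0 ≤ X4.rl x 1 := h3
    refine ⟨le_refl _, ?_, ?_⟩
    · show 0 ≤ 2 * X4.rl x 0 + 0
      linarith
    · show 0 ≤ 2 * X4.rl x 1 + 0
      linarith
  pull_one p x _ h := by
    have h1 : 4 * (X4.rl x 0 * X4.rl x 0 + X4.rl x 1 * X4.rl x 1 +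
      2 * (X4.rl x 0 * X4.rl x 1 + X4.rl x 1 * X4.rl x 0)) = 0 := h
    rw [bl4_f]
    show 16 * (X4.rl x 0 * X4.rl x 0 + X4.rl x 1 * X4.rl x 1 +
      2 * (X4.rl x 0 * X4.rl x 1 + X4.rl x 1 * X4.rl x 0)) - 0 * 0 = 0
    linarith
  siu p x T := by
    obtain ⟨h2, h3⟩ := (divisors4.nef x).1 T.down
    have h2' : 0 ≤ X4.rl x 0 := h2
    have h3' : 0 ≤ X4.rl x 1 := h3
    rw [zero_smul, sub_zero]
    refine ⟨h2', h3', ?_⟩
    show 0 ≤ X4.rl x 0 + X4.rl x 1 + 0
    linarith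

noncomputable def forms4 (L : X4.P) (hL : X4.Nef L) : X4.Forms currents4 L where
  K := ℚ
  sec _ _ _ := True
  sub _ _ := 0
  quo _ _ := 0
  add _ _ := add_zero _
  cp _ _ := by
    show 0 ≤ (((0 : Fin 2 → ℤ) 0 : ℤ) : ℝ) ∧ 0 ≤ (((0 : Fin 2 → ℤ) 1 : ℤ) : ℝ)
    simp
  wedge p k v m _ _ := by
    rw [add_zero]
    obtain ⟨h4, h5⟩ := (nef4 L).1 hL
    show g (((∑ i, m i) • L) 0) * g (((∑ i, m i) • L) 1) ≠ 0
    rw [mul_ne_zero_iff, g_pos, g_pos]
    exact ⟨nsmul_nonneg h4 _, nsmul_nonneg h5 _⟩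
  dps _ _ q m hq _ _ := by
    refine ⟨fun _ => 1, ?_, trivial⟩
    intro h
    have h1 : 0 < Nat.choose X4.n (X4.n - q) := Nat.choose_pos (Nat.sub_le _ _)
    exact one_ne_zero (congrFun h ⟨0, h1⟩)

/-- A nonzero nef class has a nonzero square. -/
theorem one4 (x : X4.P) (hx : X4.Nef x) (h : X4.One x) : (x : Fin 2 → ℤ) 0 + (x : Fin 2 → ℤ) 1 = 0 := by
  obtain ⟨h0, h1⟩ := (nef4 x).1 hx
  change Fin 2 → ℤ at x
  have h2 : 4 * (((x 0 : ℤ) : ℝ) * ((x 0 : ℤ) : ℝ) + ((x 1 : ℤ) : ℝ) * ((x 1 : ℤ) : ℝ) +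
      2 * (((x 0 : ℤ) : ℝ) * ((x 1 : ℤ) : ℝ) + ((x 1 : ℤ) : ℝ) * ((x 0 : ℤ) : ℝ))) = 0 := h
  have h3 : 4 * (x 0 * x 0 + x 1 * x 1 + 2 * (x 0 * x 1 + x 1 * x 0)) = 0 := by exact_mod_cast h2
  nlinarith [mul_nonneg h0 h1, sq_nonneg (x 0 + x 1)]

/-- A term of the type `Given 2` of dimension four. -/
noncomputable def given4 : Given 2 where
  X := X4
  div := divisors4
  coh := coh4
  cur := currents4
  forms L hL := forms4 L hL
  prog D hD hn h1 _ := by
    exact absurd (one4 _ hn h1) (ne_of_gt (line4_pos D hD))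

/-- the intersection number -/
def Q4 (x y z w : Fin 2 → ℤ) : ℤ :=
  4 * (x 0 * y 0 * z 1 * w 1 + x 0 * y 1 * z 0 * w 1 + x 0 * y 1 * z 1 * w 0 +
    x 1 * y 0 * z 0 * w 1 + x 1 * y 0 * z 1 * w 0 + x 1 * y 1 * z 0 * w 0)

theorem ln_two (c d : Bool) (a b : ℕ) :
    ln (Finsupp.single (true, c) a + Finsupp.single (false, d) b) = ![(a : ℤ), (b : ℤ)] := by
  rw [ln, Finsupp.sum_add_index', Finsupp.sum_single_index, Finsupp.sum_single_index]
  · funext i
    fin_cases i <;> simp [cz]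
  · exact zero_smul ℕ _
  · exact zero_smul ℕ _
  · intro i
    exact zero_smul ℕ _
  · intro i k l
    exact add_smul k l _

theorem nsmul4 (m : ℕ) (x : Fin 2 → ℤ) (j : Fin 2) : (m • x) j = m * x j := by
  rw [Pi.smul_apply, nsmul_eq_mul]

/-- the divisor `a F + b F'`, where `F = (true, c)`, `F' = (false, d)` -/
noncomputable def dv (c d : Bool) (a b : ℕ) : (Bool × Bool) →₀ ℕ :=
  Finsupp.single (true, c) a + Finsupp.single (false, d) b

theorem dv_supp (c d : Bool) (a b : ℕ) (F : Bool × Bool) (hF : F ∈ (dv c d a b).support) :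
    F = (true, c) ∨ F = (false, d) := by
  have h3 := Finsupp.support_add hF
  rw [Finset.mem_union] at h3
  rcases h3 with h3 | h3
  · exact Or.inl (Finset.mem_singleton.1 (Finsupp.support_single_subset h3))
  · exact Or.inr (Finset.mem_singleton.1 (Finsupp.support_single_subset h3))

theorem semi4 (x : X4.P) (hx : X4.Nef x) : X4.Semiample x := by
  obtain ⟨h1, h2⟩ := (nef4 x).1 hx
  change Fin 2 → ℤ at x
  refine ⟨1, one_pos, fun p => ?_⟩
  change Bool × Bool at p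
  refine ⟨dv (!p.1) (!p.2) (x 0).toNat (x 1).toNat, ?_, ?_⟩
  · rw [one_smul]
    refine (ln_two _ _ _ _).trans ?_
    funext i
    fin_cases i
    · exact Int.toNat_of_nonneg h1
    · exact Int.toNat_of_nonneg h2
  · intro F hF
    show ¬ on p F
    rcases dv_supp _ _ _ _ F hF with h | h
    · rw [h]
      rintro (⟨-, h⟩ | ⟨h, -⟩)
      · exact (Bool.eq_not_self p.1).mp h
      · exact Bool.noConfusion h
    · rw [h]
      rintro (⟨h, -⟩ | ⟨-, h⟩)
      · exact Bool.noConfusion h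
      · exact (Bool.eq_not_self p.2).mp h

/-- The multiples of a nonzero effective class have many sections. -/
theorem many4 (x : Fin 2 → ℤ) (h1 : 0 ≤ x 0) (h2 : 0 ≤ x 1) (h5 : 0 < x 0 + x 1) (a : ℕ) :
    ∃ m : ℕ, 0 < m ∧ a + 1 ≤ X4.h 0 (m • x) := by
  refine ⟨a + 1, by omega, ?_⟩
  show a + 1 ≤ g (((a + 1) • x : Fin 2 → ℤ) 0) * g (((a + 1) • x : Fin 2 → ℤ) 1)
  rw [nsmul4, nsmul4]
  have e3 : (0 : ℤ) ≤ ((a + 1 : ℕ) : ℤ) := by positivity
  have h6 := g_ge (((a + 1 : ℕ) : ℤ) * x 0) (mul_nonneg e3 h1)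
  have h7 := g_ge (((a + 1 : ℕ) : ℤ) * x 1) (mul_nonneg e3 h2)
  have e4 := mul_nonneg e3 h1
  have e5 := mul_nonneg e3 h2
  obtain ⟨u, hu⟩ : ∃ u, u = g (((a + 1 : ℕ) : ℤ) * x 0) := ⟨_, rfl⟩
  obtain ⟨v, hv⟩ : ∃ v, v = g (((a + 1 : ℕ) : ℤ) * x 1) := ⟨_, rfl⟩
  rw [← hu] at h6 ⊢
  rw [← hv] at h7 ⊢
  have e6 : 1 ≤ u := by omega
  have e7 : 1 ≤ v := by omega
  have e8 : u ≤ u * v := Nat.le_mul_of_pos_right _ e7
  have e9 : v ≤ u * v := Nat.le_mul_of_pos_left _ e6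
  rcases lt_or_ge 0 (x 0) with h | h
  · have : ((a + 1 : ℕ) : ℤ) ≤ ((a + 1 : ℕ) : ℤ) * x 0 := le_mul_of_one_le_right e3 (by omega)
    omega
  · have : ((a + 1 : ℕ) : ℤ) ≤ ((a + 1 : ℕ) : ℤ) * x 1 := le_mul_of_one_le_right e3 (by omega)
    omega

theorem rr4 (x : Fin 2 → ℤ) (m : ℕ) : 24 * X4.chi (m • x) = m ^ 4 * Q4 x x x x +
    m ^ 2 * (48 * (x 0 * x 0 + x 1 * x 1)) + 24 * X4.chi 0 := by
  have h1 : X4.chi (m • x) = ((m • x) 0 * (m • x) 0 + 2) * ((m • x) 1 * (m • x) 1 + 2) :=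
    chi4 (m • x)
  have h2 : X4.chi 0 = (0 * 0 + 2) * (0 * 0 + 2) := chi4 0
  rw [h1, h2, nsmul4, nsmul4]
  unfold Q4
  ring

/-- A term of the type `Four 2`. -/
noncomputable def four : Four 2 where
  toGiven := given4
  dim := rfl
  Q := Q4
  A := (![1, 1] : Fin 2 → ℤ)
  c x := 48 * ((x : Fin 2 → ℤ) 0 * (x : Fin 2 → ℤ) 0 + (x : Fin 2 → ℤ) 1 * (x : Fin 2 → ℤ) 1)
  nonneg x hx := by
    obtain ⟨h1, h2⟩ := (nef4 x).1 hx
    change Fin 2 → ℤ at x
    show 0 ≤ Q4 x x x x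
    unfold Q4
    positivity
  miyaoka x hx := by
    obtain ⟨h1, h2⟩ := (nef4 x).1 hx
    change Fin 2 → ℤ at x
    show 0 ≤ 48 * (x 0 * x 0 + x 1 * x 1)
    positivity
  rr x m := rr4 x m
  one := rfl
  reg := rfl
  serre i hi := by
    show h4 (4 - i) 0 = h4 i 0
    interval_cases i <;> simp [h4]
  kv x hx hq m i hm hi := by
    obtain ⟨h1, h2⟩ := (nef4 x).1 hx
    change Fin 2 → ℤ at x
    have hq' : Q4 x x x ![1, 1] ≠ 0 := hq
    have h3 : 0 < x 0 := by
      refine lt_of_le_of_ne h1 fun h => hq' ?_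
      simp [Q4, ← h]
    have h5 : 0 < x 1 := by
      refine lt_of_le_of_ne h2 fun h => hq' ?_
      simp [Q4, ← h]
    have e1 := nsmul4 m x
    have e2 : (0 : ℤ) < m := by exact_mod_cast hm
    have e3 : g (-(m * x 0)) = 0 := g_neg _ (by nlinarith)
    have e4 : g (-(m * x 1)) = 0 := g_neg _ (by nlinarith)
    show h4 i (m • x : Fin 2 → ℤ) = 0
    unfold h4
    rw [e1, e1, e3, e4]
    have : i ≠ 0 := by omega
    simp [this]
  fukuda x hx _ _ _ := semi4 x hx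
  model x hx hq D hD m hm h := model X4 x (by
    obtain ⟨h1, h2⟩ := (nef4 x).1 hx
    have h3 := line4_pos D hD
    have h' : X4.line D = m • x := h
    rw [h'] at h3
    change Fin 2 → ℤ at x
    have h4 : 0 < (m • x : Fin 2 → ℤ) 0 + (m • x : Fin 2 → ℤ) 1 := h3
    rw [nsmul4, nsmul4, ← mul_add] at h4
    exact many4 x h1 h2 (pos_of_mul_pos_right h4 (by positivity)))

/-- The test is not vacuous: the class `L_1` is nef, its numerical dimension is two, and it is the class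
of an effective divisor which is not zero. -/
theorem test : four.X.Nef (![1, 0] : Fin 2 → ℤ) ∧
    four.Q (![1, 0] : Fin 2 → ℤ) (![1, 0] : Fin 2 → ℤ) (![1, 0] : Fin 2 → ℤ) four.A = 0 ∧
    ¬ four.X.One (![1, 0] : Fin 2 → ℤ) ∧
    ∃ D : four.X.Pr →₀ ℕ, D ≠ 0 ∧ four.X.line D = (1 : ℕ) • (![1, 0] : Fin 2 → ℤ) := by
  refine ⟨(nef4 _).2 ⟨by simp, by simp⟩, ?_, ?_, ?_⟩
  · show Q4 ![1, 0] ![1, 0] ![1, 0] ![1, 1] = 0
    simp [Q4]
  · intro h
    have h1 := one4 (![1, 0] : Fin 2 → ℤ) ((nef4 _).2 ⟨by simp, by simp⟩) h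
    simp at h1
  · refine ⟨dv true true 1 0, ?_, ?_⟩
    · intro h
      have h1 : (dv true true 1 0) (true, true) = 0 := by
        rw [show dv true true 1 0 = 0 from h]
        rfl
      simp [dv] at h1
    · refine (ln_two _ _ _ _).trans ?_
      rw [one_smul]
      rfl

end Pool.Agent.H39.FF
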