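import Pool.Agent.H76.FF.Defs

/-!
# A model of `Nbhd` (corner test)

For all `l` and all `b > 0` there is a term of the type `Nbhd l b`.

The global part: `D` is a threefold with `H^0 = H^3 = ℂ` and `H^1 = H^2 = 0`, with trivial normal bundle,
and `D_k = D × Spec ℂ[z]/z^k`. The groups `H^q(D_k, O(m D))` are the spaces `Fin k → ℂ` for `q = 0, 3`.

The local part: `Z` is the union of two lines through one point (the special point `none`), functions are
polynomials, the general fibre is an abelian surface (`H^1` of rank two, the local system of rank four),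
and the thickenings are split. The classes at the special point are the pairs of classes on the two
branches with the same value.
-/

set_option autoImplicit false

open Polynomial Finset

namespace Pool.Agent.H39.FF

open Pool.Agent.H76.FF

/-! ## The global part -/

/-- a point if `q = 0` or `q = 3` -/
abbrev J (q : ℕ) : Type := {_u : Unit // q = 0 ∨ q = 3}

abbrev Hq (q k : ℕ) : Type := Fin k → J q → ℂ

/-- the coordinate, zero if there is none -/
def s (q : ℕ) : (J q → ℂ) →ₗ[ℂ] ℂ :=
  if h : q = 0 ∨ q = 3 then LinearMap.proj (⟨(), h⟩ : J q) else 0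

theorem s_inj (q : ℕ) (w : J q → ℂ) (hw : s q w = 0) : w = 0 := by
  funext a
  obtain ⟨⟨⟩, h⟩ := a
  simpa [s, h] using hw

theorem s_one (q : ℕ) (h : q = 0 ∨ q = 3) (c : ℂ) : s q (fun _ => c) = c := by
  simp [s, h]

/-- the pairing: the coefficient of `z^(k-1)` in the product -/
def P (q q' k : ℕ) : Hq q k →ₗ[ℂ] Hq q' k →ₗ[ℂ] ℂ :=
  LinearMap.mk₂ ℂ (fun u v => ∑ i, s q (u i) * s q' (v (Fin.rev i)))
    (fun u u' v => by simp [add_mul, Finset.sum_add_distrib])
    (fun c u v => by simp [mul_assoc, Finset.mul_sum])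
    (fun u v v' => by simp [mul_add, Finset.sum_add_distrib])
    (fun c u v => by simp [mul_left_comm, Finset.mul_sum])

theorem P_apply (q q' k : ℕ) (u : Hq q k) (v : Hq q' k) :
    P q q' k u v = ∑ i, s q (u i) * s q' (v (Fin.rev i)) := rfl

/-- multiplication by `z` -/
def shift (q k : ℕ) : Hq q k →ₗ[ℂ] Hq q (k + 1) where
  toFun u := Fin.cons 0 u
  map_add' u v := by
    funext i
    refine Fin.cases ?_ (fun j => ?_) i
    · simp
    · simp
  map_smul' c u := by
    funext i
    refine Fin.cases ?_ (fun j => ?_) i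
    · simp
    · simp

def trunc (q k : ℕ) : Hq q (k + 1) →ₗ[ℂ] Hq q k := LinearMap.funLeft ℂ (J q → ℂ) Fin.castSucc

def bot (q k : ℕ) : Hq q (k + 1) →ₗ[ℂ] Hq q 1 :=
  LinearMap.funLeft ℂ (J q → ℂ) (fun _ : Fin 1 => (0 : Fin (k + 1)))

theorem P_shift (q q' k : ℕ) (u : Hq q (k + 1)) (y : Hq q' k) :
    P q q' k (trunc q k u) y = P q q' (k + 1) u (shift q' k y) := by
  rw [P_apply, P_apply, Fin.sum_univ_castSucc]
  simp [trunc, shift, LinearMap.funLeft, Fin.rev_castSucc]

theorem P_inj (q q' k : ℕ) (hq : q + q' = 3) (u : Hq q k) (hu : P q q' k u = 0) : u = 0 := by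
  funext i
  by_cases h : q = 0 ∨ q = 3
  · have h' : q' = 0 ∨ q' = 3 := by omega
    apply s_inj
    have := congrArg (fun f => f (Pi.single (Fin.rev i) (fun _ => (1 : ℂ)))) hu
    simp only [P_apply, LinearMap.zero_apply] at this
    rw [Finset.sum_eq_single i] at this
    · simpa [s_one q' h'] using this
    · intro j _ hj
      have : Fin.rev j ≠ Fin.rev i := fun h => hj (Fin.rev_injective h)
      simp [Pi.single_eq_of_ne this]
    · simp
  · funext a
    exact absurd a.2 h

theorem P_onto (q q' k : ℕ) (hq : q + q' = 3) (f : Hq q' k →ₗ[ℂ] ℂ) : ∃ u, P q q' k u = f := by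
  by_cases h : q = 0 ∨ q = 3
  · have h' : q' = 0 ∨ q' = 3 := by omega
    refine ⟨fun i _ => f (Pi.single (Fin.rev i) (fun _ => 1)), ?_⟩
    apply LinearMap.ext
    intro v
    rw [P_apply]
    have h1 : v = ∑ j, Pi.single j (v j) := by
      funext i
      simp [Finset.sum_apply]
    have h2 : ∀ j, Pi.single (M := fun _ : Fin k => J q' → ℂ) j (v j) =
        s q' (v j) • Pi.single (M := fun _ : Fin k => J q' → ℂ) j (fun _ => (1 : ℂ)) := by
      intro j
      rw [← Pi.single_smul]
      congr 1
      funext a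
      obtain ⟨⟨⟩, ha⟩ := a
      simp [s, h']
    conv_rhs => rw [h1, map_sum]
    rw [← Equiv.sum_comp Fin.revPerm]
    refine Finset.sum_congr rfl fun i _ => ?_
    rw [h2 i, map_smul, s_one q h]
    simp [mul_comm]
  · refine ⟨0, ?_⟩
    apply LinearMap.ext
    intro v
    have hv : v = 0 := by
      funext i a
      have := a.2
      omega
    rw [hv, map_zero, map_zero]

/-- The cohomology of the neighbourhoods. -/
def coh : Coh where
  H q k _ := Hq q k
  res q k _ := trunc q k
  d _ _ _ := 0
  cup _ _ _ := 0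
  T q k _ _ := Hq q (k + 1)
  rT q k _ _ := trunc q k
  rD q k _ _ := bot q k
  iT q k _ _ := shift q k
  dl _ _ _ _ := 0
  pT q q' k _ _ _ _ := P q q' (k + 1)
  pH q q' k _ _ := P q q' k

theorem trunc_onto (q k : ℕ) (t : Hq q k) : ∃ u, trunc q k u = t :=
  ⟨Fin.snoc t 0, by funext i; simp [trunc, LinearMap.funLeft]⟩

theorem coh_exact (l : ℕ) : coh.Exact l where
  exact q k m t _ := ⟨fun _ => trunc_onto q k t, fun _ => rfl⟩
  exact_rT q k m x u _ := by
    change (0 : Hq (q + 1) 1) + 0 = 0
    simp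
  exact_rD q k m x u _ := rfl
  exact_iT q k m x y _ hy := by
    refine ⟨0, ?_⟩
    have h1 : shift (q + 1) k y = 0 := hy
    change (0 : Hq (q + 1) k) = y
    funext i
    have := congrFun h1 i.succ
    simpa [shift] using this.symm
  inj_iT k m x y _ hy := by
    have h1 : shift 0 k y = 0 := hy
    funext i
    have h2 := congrFun h1 i.succ
    change y i = (0 : J 0 → ℂ)
    simpa [shift] using h2
  onto q q' k m m' x x' f _ hq _ _ := P_onto q q' (k + 1) hq f
  inj q q' k m m' t _ hq _ ht := P_inj q q' k hq t ht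
  adjoint q q' k m m' x x' u y _ _ _ _ := P_shift q q' k u y
  dim q k m t hq := by
    funext i a
    have := a.2
    omega

theorem bot_onto (q k : ℕ) (t : Hq q 1) : ∃ u, bot q k u = t := by
  refine ⟨fun _ => t 0, ?_⟩
  funext i
  fin_cases i
  rfl

/-- The covering attached to a section: the direct sum of all the eigenspaces. -/
noncomputable def cover (k M : ℕ) (u : coh.H 0 k M) : coh.Cover k M 0 u where
  ext := by
    change (0 : Hq (0 + 1) 1) + 0 = 0
    simp
  A q := ℤ → Hq q (k + 1)
  B q := ℤ → Hq q (k + 1)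
  B' q := ℤ → Hq q 1
  f _ y := y
  g q y m := bot q k (y m)
  dubois q y := by
    choose u hu using fun m => bot_onto q k (y m)
    exact ⟨u, funext hu⟩
  e _ m y := y m
  e' _ m y := y m
  e_g _ _ _ _ _ := rfl
  e_onto _ _ y _ _ := ⟨fun _ => y, rfl⟩

/-! ## The local part -/

/-- the pairs of polynomials with the same value at the origin -/
def node : Submodule ℂ (Bool → ℂ[X]) where
  carrier := {f | ∀ β β', (f β).eval 0 = (f β').eval 0}
  add_mem' := by
    intro f g hf hg β β'
    simp only [Pi.add_apply, eval_add, hf β β', hg β β']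
  zero_mem' := by
    intro β β'
    simp
  smul_mem' := by
    intro c f hf β β'
    simp only [Pi.smul_apply, eval_smul, hf β β']

/-- the functions near a point of `Z` -/
def Fz : Option Bool → Type
  | none => node
  | some _ => ℂ[X]

noncomputable instance (z : Option Bool) : AddCommGroup (Fz z) :=
  match z with
  | none => inferInstanceAs (AddCommGroup node)
  | some _ => inferInstanceAs (AddCommGroup ℂ[X])

noncomputable instance (z : Option Bool) : Module ℂ (Fz z) :=
  match z with
  | none => inferInstanceAs (Module ℂ node)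
  | some _ => inferInstanceAs (Module ℂ ℂ[X])

/-- the numbers `h^q(O)` of an abelian surface -/
abbrev hF : ℕ → ℕ
  | 0 => 1
  | 1 => 2
  | 2 => 1
  | _ => 0

abbrev Q (q : ℕ) : Type := Fin (hF q)

abbrev Rz (q k : ℕ) (z : Option Bool) : Type := Fin k → Q q → Fz z

noncomputable def rres (q k : ℕ) (z : Option Bool) : Rz q (k + 1) z →ₗ[ℂ] Rz q k z :=
  LinearMap.funLeft ℂ (Q q → Fz z) Fin.castSucc

noncomputable def rmz (q k : ℕ) (z : Option Bool) : Rz q k z →ₗ[ℂ] Rz q (k + 1) z where
  toFun u := Fin.cons 0 u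
  map_add' u v := by
    funext i
    refine Fin.cases ?_ (fun j => ?_) i
    · simp
    · simp
  map_smul' c u := by
    funext i
    refine Fin.cases ?_ (fun j => ?_) i
    · simp
    · simp

/-- The direct images. -/
noncomputable def img : Img where
  Z := Option Bool
  G := Bool
  pt := some
  R q k _ z := Rz q k z
  res q k _ z := rres q k z
  mz q k _ z := rmz q k z

theorem one_apply (q : ℕ) (m : ℤ) (z : Option Bool) (k : ℕ) (u : Rz q (k + 1) z) (i : Fin 1) :
    (Img.one img q m z k u : Rz q 1 z) i = u 0 := by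
  induction k with
  | zero =>
    have : i = 0 := Subsingleton.elim _ _
    rw [this]
    rfl
  | succ k ih =>
    change (Img.one img q m z k (rres q (k + 1) z u) : Rz q 1 z) i = u 0
    rw [ih]
    rfl

theorem img_exact : img.Exact where
  zero q m z y := by
    change Rz q 0 z at y
    exact (Subsingleton.elim (α := Rz q 0 z) y 0)
  ker q k m z y hy := by
    change Rz q (k + 1) z at y
    refine ⟨(fun i => y i.succ : Rz q k z), ?_⟩
    have h0 : y 0 = 0 := by
      have := one_apply q m z k y 0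
      rw [← this, hy]
      rfl
    change (Fin.cons 0 (fun i => y i.succ) : Rz q (k + 1) z) = y
    funext i
    refine Fin.cases ?_ (fun j => ?_) i
    · rw [h0, Fin.cons_zero]
    · rw [Fin.cons_succ]

theorem img_S (k : ℕ) : img.S k := by
  intro q m z y
  change Rz q k z at y
  refine ⟨(Fin.snoc y 0 : Rz q (k + 1) z), ?_⟩
  change rres q k z _ = y
  funext i
  simp [rres, LinearMap.funLeft]

/-- functions on the fibre times functions on the base, the product of truncated polynomials in `z` -/
noncomputable def mulz (r k : ℕ) (x : Fin (k + 1) → Fin 1 → ℂ[X]) (y : Fin (k + 1) → Fin r → ℂ[X]) :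
    Fin (k + 1) → Fin r → ℂ[X] :=
  fun i c => ∑ j : Fin (k + 1), if j ≤ i then x j 0 * y (i - j) c else 0

theorem mulz_zero (r k : ℕ) (x : Fin (k + 1) → Fin 1 → ℂ[X]) (y : Fin (k + 1) → Fin r → ℂ[X])
    (c : Fin r) : mulz r k x y 0 c = x 0 0 * y 0 c := by
  unfold mulz
  rw [Finset.sum_eq_single 0]
  · simp
  · intro j _ hj
    rw [if_neg]
    intro h
    exact hj (le_antisymm h (Fin.zero_le _))
  · simp

/-- the classes over a general disc -/
abbrev Gz (q k : ℕ) : Type := Fin k → Q q → ℂ[X]

noncomputable instance modR (m : ℤ) (g : Bool) : Module ℂ[X] (img.R 1 1 m (img.pt g)) :=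
  inferInstanceAs (Module ℂ[X] (Gz 1 1))

/-- the pairing of `H^1` of the fibre with itself -/
noncomputable def pairG : Gz 1 1 →ₗ[ℂ[X]] Gz 1 1 →ₗ[ℂ[X]] ℂ[X] :=
  LinearMap.mk₂ ℂ[X] (fun c v => ∑ i, c 0 i * v 0 i)
    (fun u u' v => by simp [add_mul, Finset.sum_add_distrib])
    (fun c u v => by simp [mul_assoc, Finset.mul_sum])
    (fun u v v' => by simp [mul_add, Finset.sum_add_distrib])
    (fun c u v => by simp [mul_left_comm, Finset.mul_sum])

/-- The symbol: all connecting maps are zero. -/
noncomputable def symb (n : ℕ) (a : ℤ) : Symbol img n a where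
  O _ := ℂ[X]
  t _ := X
  der _ := Polynomial.derivative'
  mC g := modR _ g
  mB g := modR _ g
  fn _ :=
    { toFun := fun x => (x : Gz 0 1) 0 (0 : Fin 1)
      map_add' := fun _ _ => rfl
      map_smul' := fun _ _ => rfl }
  pair _ := pairG
  mf _ x y := mulz 1 n x y
  mb _ x y := mulz 2 n x y
  d _ := 0
  dd _ := 0
  F _ := Fin 4 → ℂ
  fl _ w := (fun i j => if i = 0 then C (w (Fin.castLE (by decide) j)) else 0 : Gz 1 (n + 1))
  V _ := Fin 4 → ℂ[X]
  inc _ w := fun i => C (w i)
  na _ := AddMonoidHom.mk' (fun v i => derivative (v i)) (by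
    intro v w
    funext i
    simp)
  pr _ :=
    { toFun := fun v => (fun _ j => v (Fin.castLE (by decide) j) : Gz 1 1)
      map_add' := fun _ _ => rfl
      map_smul' := fun _ _ => rfl }
  W _ := ⊥
  Sp := Unit
  sp _ := (none : Option Bool)
  Br _ := Bool
  near _ β := (β : Bool)
  Reg _ _ := Set.univ
  Lat _ _ := {v | ∃ w : Fin 4 → ℂ[X], v = fun i => X * w i}
  rho _ β j :=
    { toFun := fun u => (fun i q => ((u : Rz 1 j none) i q).1 β : Gz 1 j)
      map_add' := fun _ _ => rfl
      map_smul' := fun _ _ => rfl }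
  Om _ := Unit
  om _ _ := ()
  rs _ _ _ := (0 : ℂ[X])
  Glob c := ∀ g, c g = 0

/-- the restriction to `D` over a general disc -/
noncomputable def oneG (q : ℕ) (m : ℤ) (g : Bool) (n : ℕ) (u : Gz q (n + 1)) : Gz q 1 :=
  Img.one img q m (some g) n u

theorem oneG_apply (q : ℕ) (m : ℤ) (g : Bool) (n : ℕ) (u : Gz q (n + 1)) (i : Fin 1) :
    oneG q m g n u i = u 0 :=
  one_apply q m (some g) n u i

theorem symb_gen (n : ℕ) (a : ℤ) : (symb n a).Gen where
  fn_inj g x hx := by
    change Gz 0 1 at x
    have h1 : x 0 (0 : Fin 1) = 0 := hx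
    funext i j
    have h2 : i = 0 := Subsingleton.elim _ _
    have h3 : j = (0 : Fin 1) := Subsingleton.elim (α := Fin 1) _ _
    rw [h2, h3]
    exact h1
  fn_onto g f := ⟨(fun _ _ => f : Gz 0 1), rfl⟩
  fn_mf g x y := by
    change oneG 0 0 g n (mulz 1 n x y) 0 (0 : Fin 1) =
      oneG 0 0 g n x 0 (0 : Fin 1) * oneG 0 0 g n y 0 (0 : Fin 1)
    rw [oneG_apply, oneG_apply, oneG_apply]
    exact mulz_zero 1 n x y 0
  one_mb g x y := by
    change oneG 1 a g n (mulz 2 n x y) = oneG 0 0 g n x 0 (0 : Fin 1) • oneG 1 a g n y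
    funext i c
    rw [oneG_apply, oneG_apply, Pi.smul_apply, oneG_apply]
    exact mulz_zero 2 n x y c
  d_mf g x y := by
    change (0 : Gz 1 1) = (_ : ℂ[X]) • (0 : Gz 1 1) + (_ : ℂ[X]) • (0 : Gz 1 1)
    rw [smul_zero, smul_zero, add_zero]
  dd_mb g x y := by
    change (0 : ℂ[X]) = _ * 0 + pairG 0 _
    rw [mul_zero, map_zero, LinearMap.zero_apply, add_zero]
  exact_d g x _ := img_S (n + 1) 0 0 (some g) x
  d_mz g u := rfl
  dd_mz g u := rfl
  dd_fl g w := rfl
  one_fl g w := by
    change Fin 4 → ℂ at w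
    funext i
    refine (one_apply 1 a (some g) n _ i).trans ?_
    funext j
    change (if (0 : Fin (n + 1)) = 0 then C (w (Fin.castLE (by decide) j)) else 0 : ℂ[X]) = _
    rw [if_pos rfl]
    rfl
  span g v := by
    change Fin 4 → ℂ[X] at v
    refine ⟨4, v, fun i => (Pi.single i 1 : Fin 4 → ℂ), ?_⟩
    change v = ∑ i, v i • (fun j => C ((Pi.single i 1 : Fin 4 → ℂ) j) : Fin 4 → ℂ[X])
    funext j
    rw [Finset.sum_apply, Finset.sum_eq_single j]
    · simp
    · intro i _ hij
      simp [Pi.single_eq_of_ne' hij]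
    · simp
  na_smul g f v := by
    change Fin 4 → ℂ[X] at v
    change ℂ[X] at f
    change (fun i => derivative (f * v i) : Fin 4 → ℂ[X]) =
      fun i => derivative f * v i + f * derivative (v i)
    funext i
    rw [derivative_mul]
  na_inc g w := by
    change Fin 4 → ℂ at w
    change (fun i => derivative (C (w i)) : Fin 4 → ℂ[X]) = 0
    funext i
    simp
  der_t g := by
    change Polynomial.derivative (X : ℂ[X]) = 1
    exact derivative_X
  derivation g δ f := by
    change Derivation ℂ ℂ[X] (Gz 1 1) at δ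
    change ℂ[X] at f
    change δ f = derivative f • δ X
    induction f using Polynomial.induction_on' with
    | add p q hp hq => rw [map_add, hp, hq, derivative_add, add_smul]
    | monomial m c =>
      have h1 : δ (C c) = 0 := by
        rw [Polynomial.C_eq_algebraMap]
        exact δ.map_algebraMap c
      rw [← C_mul_X_pow_eq_monomial, Derivation.leibniz, Derivation.leibniz_pow, h1,
        derivative_C_mul_X_pow, smul_zero, add_zero]
      rw [← Nat.cast_smul_eq_nsmul ℂ[X] m, smul_smul, smul_smul]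
      congr 1
      rw [C_mul, map_natCast]
  dual g c hc := by
    change Gz 1 1 at c
    funext i j
    have h2 : i = 0 := Subsingleton.elim _ _
    subst h2
    have h3 : ∀ v : Fin 4 → ℂ[X], c 0 (0 : Fin 2) * v 0 + c 0 (1 : Fin 2) * v 1 = 0 := by
      intro v
      have h4 : (∑ k : Fin 2, c 0 k * v (Fin.castLE (by decide) k) : ℂ[X]) = 0 := hc v
      rw [Fin.sum_univ_two] at h4
      exact h4
    have h5 := h3 ![1, 0, 0, 0]
    have h6 := h3 ![0, 1, 0, 0]
    simp only [Matrix.cons_val_zero, Matrix.cons_val_one, mul_one, mul_zero, add_zero, zero_add] at h5 h6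
    change Fin 2 at j
    fin_cases j
    · exact h5
    · exact h6

/-- `t d/dt` is bijective on the multiples of `t` -/
theorem euler (w : ℂ[X]) : ∃ u : ℂ[X], X * derivative (X * u) = X * w := by
  induction w using Polynomial.induction_on' with
  | add p q hp hq =>
    obtain ⟨u, hu⟩ := hp
    obtain ⟨v, hv⟩ := hq
    exact ⟨u + v, by rw [mul_add, derivative_add, mul_add, hu, hv, mul_add]⟩
  | monomial m c =>
    refine ⟨C (c / (m + 1)) * X ^ m, ?_⟩
    have h0 : ((m : ℂ) + 1) ≠ 0 := Nat.cast_add_one_ne_zero m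
    rw [← C_mul_X_pow_eq_monomial, show (X : ℂ[X]) * (C (c / (m + 1)) * X ^ m) =
      C (c / (m + 1)) * X ^ (m + 1) by ring, derivative_C_mul_X_pow]
    have h1 : c / ((m : ℂ) + 1) * ((m + 1 : ℕ) : ℂ) = c := by
      push_cast
      field_simp
    rw [h1, Nat.add_sub_cancel]

theorem symb_spec (n : ℕ) (a : ℤ) : (symb n a).Spec where
  rho_res z β j u := rfl
  rs_om z β u := rfl
  residue z β ω _ := Set.mem_univ _
  onto z β e he := by
    obtain ⟨w, rfl⟩ := he
    choose u hu using fun i => euler (w i)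
    refine ⟨fun i => X * u i, ⟨u, rfl⟩, ?_⟩
    change (fun i => X * derivative (X * u i) : Fin 4 → ℂ[X]) = fun i => X * w i
    funext i
    rw [hu i]
  cls z β e he := by
    obtain ⟨w, rfl⟩ := he
    classical
    refine ⟨(fun _ j => (⟨Pi.single (M := fun _ : Bool => ℂ[X]) β (X * w (Fin.castLE (by decide) j)), ?_⟩ :
      node) : Rz 1 1 none), ?_, ?_⟩
    · intro γ γ'
      have h1 : ∀ γ : Bool, (Pi.single (M := fun _ : Bool => ℂ[X]) β
          (X * w (Fin.castLE (by decide) j)) γ).eval 0 = 0 := by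
        intro γ
        by_cases h : γ = β
        · rw [h, Pi.single_eq_same, eval_mul, eval_X, zero_mul]
        · rw [Pi.single_eq_of_ne h, eval_zero]
      rw [h1, h1]
    · change (fun _ j => Pi.single (M := fun _ : Bool => ℂ[X]) β (X * w (Fin.castLE (by decide) j)) β :
        Gz 1 1) = fun _ j => X * w (Fin.castLE (by decide) j)
      funext i j
      rw [Pi.single_eq_same]
    · intro β' hβ'
      change (fun _ j => Pi.single (M := fun _ : Bool => ℂ[X]) β (X * w (Fin.castLE (by decide) j)) β' :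
        Gz 1 1) = 0
      funext i j
      exact Pi.single_eq_of_ne (M := fun _ : Bool => ℂ[X]) hβ' _

theorem symb_hodge (n : ℕ) (a : ℤ) : (symb n a).Hodge where
  glob τ _ g := rfl
  w0 c hc _ g v hv := by
    have h0 : c g = 0 := hc g
    rw [h0, map_zero, LinearMap.zero_apply]
  w1 c hc _ _ _ g v := by
    have h0 : c g = 0 := hc g
    rw [h0, map_zero, LinearMap.zero_apply]

/-- A term of the type `Nbhd l b`, for all `l` and all `b > 0`. -/
noncomputable def toy (l b : ℕ) (hb : 0 < b) : Nbhd l b where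
  C := coh
  cex := coh_exact l
  I := img
  iex := img_exact
  b_pos := hb
  Gn _ _ := Set.univ
  span _ _ _ _ _ := ⟨Set.univ_nonempty, Submodule.span_univ⟩
  cover k M _ _ _ _ _ u _ := ⟨0, ⟨cover k M u⟩⟩
  cover_zero k M _ _ _ u _ _ := ⟨cover k M u⟩
  serre k _ _ _ := img_S k
  symbol n _ _ := symb n (l + n + 2)
  gen n _ _ := symb_gen n (l + n + 2)
  spec n _ _ := symb_spec n (l + n + 2)
  hodge n _ _ := symb_hodge n (l + n + 2)

/-- In the model `H^0(D, O(m D))` is not zero, for all `m`. -/
theorem toy_ne (l b : ℕ) (hb : 0 < b) (m : ℤ) : ∃ y : (toy l b hb).C.H 0 1 m, y ≠ 0 := by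
  refine ⟨(fun _ _ => 1 : Hq 0 1), fun h => ?_⟩
  have h1 : (1 : ℂ) = 0 := congrFun (congrFun (h : (fun _ _ => 1 : Hq 0 1) = 0) 0) ⟨(), Or.inl rfl⟩
  exact one_ne_zero h1

end Pool.Agent.H39.FF
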